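import Pool.Agent.Helper18.KO.Defs

/-!
Part SKEL of swarm KO: hub families with load of the order of the degree.
-/

set_option autoImplicit false
set_option linter.unusedSectionVars false

namespace Pool.Agent.Helper3.KO.SKEL

open Finset Module BNTW

open Pool.Agent.Helper36.BN (cyc mem_cyc spn z2 z2_ne)

section basis

variable {E : Type} [Fintype E] [DecidableEq E]

/-- a basis chosen from a generating list, for an arbitrary cost -/
theorem basis_of_list {C : Submodule (ZMod 2) (E → ZMod 2)}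
    {X : List (E → ZMod 2)} (hX : spn X = C) (w : (E → ZMod 2) → ℕ) :
    ∃ b : Basis (Fin (finrank (ZMod 2) C)) (ZMod 2) C,
      ∑ i, w (b i : E → ZMod 2) ≤ (X.map w).sum := by
  classical
  obtain ⟨B, hBX, hBspan, hBli⟩ := exists_linearIndependent (ZMod 2) {x | x ∈ X}
  have hspan : Submodule.span (ZMod 2) B = C := by rw [hBspan]; exact hX
  have hBfin : B.Finite := by
    refine Set.Finite.subset (List.finite_toSet X) ?_
    exact hBX
  have : Fintype B := hBfin.fintype
  let b₁ : Basis B (ZMod 2) (Submodule.span (ZMod 2) (Set.range (Subtype.val : B → E → ZMod 2))) :=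
    Basis.span hBli
  have hr : Submodule.span (ZMod 2) (Set.range (Subtype.val : B → E → ZMod 2)) = C := by
    rw [Subtype.range_coe]; exact hspan
  let b₂ : Basis B (ZMod 2) C := b₁.map (LinearEquiv.ofEq _ _ hr)
  have hb₂ : ∀ i : B, (b₂ i : E → ZMod 2) = i.1 := by
    intro i
    simp only [b₂, Basis.map_apply, LinearEquiv.coe_ofEq_apply]
    exact congrArg Subtype.val (Basis.span_apply hBli i)
  have hcard : Fintype.card B = finrank (ZMod 2) C := (Module.finrank_eq_card_basis b₂).symm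
  let φ : B ≃ Fin (finrank (ZMod 2) C) := Fintype.equivFinOfCardEq hcard
  refine ⟨b₂.reindex φ, ?_⟩
  have h1 : ∑ i, w ((b₂.reindex φ) i : E → ZMod 2) = ∑ i : B, w i.1 := by
    rw [← Equiv.sum_comp φ]
    refine sum_congr rfl fun i _ => ?_
    rw [Basis.reindex_apply, Equiv.symm_apply_apply, hb₂]
  have h2 : ∑ i : B, w i.1 = ∑ x ∈ B.toFinset, w x :=
    (Finset.sum_subtype B.toFinset (fun x => Set.mem_toFinset) _).symm
  have h3 : ∑ x ∈ B.toFinset, w x ≤ ∑ x ∈ X.toFinset, w x := by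
    apply sum_le_sum_of_subset
    intro x hx
    rw [Set.mem_toFinset] at hx
    exact List.mem_toFinset.2 (hBX hx)
  have h4 : ∀ Y : List (E → ZMod 2), ∑ x ∈ Y.toFinset, w x ≤ (Y.map w).sum := by
    intro Y
    induction Y with
    | nil => simp
    | cons a Y ih =>
      rw [List.toFinset_cons, List.map_cons, List.sum_cons]
      by_cases h : a ∈ Y.toFinset
      · rw [insert_eq_of_mem h]; omega
      · rw [sum_insert h]; omega
  rw [h1, h2]
  exact h3.trans (h4 X)

end basis

section graph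

variable {ι V : Type} [Fintype ι] [DecidableEq ι] [Fintype V] [DecidableEq V]

/-- the hub of a spoke -/
def src (p : ι × V) : ι ⊕ V := Sum.inl p.1

/-- the vertex of a spoke -/
def tgt (p : ι × V) : ι ⊕ V := Sum.inr p.2

/-- the spokes -/
def spokes (N : ι → Finset V) (P : Finset ι) : Finset (ι × V) :=
  univ.filter (fun p => p.1 ∈ P ∧ p.2 ∈ N p.1)

theorem mem_spokes {N : ι → Finset V} {P : Finset ι} {p : ι × V} :
    p ∈ spokes N P ↔ p.1 ∈ P ∧ p.2 ∈ N p.1 := by
  simp [spokes]

theorem sum_inr (y : ι × V → ZMod 2) (v : V) :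
    ∑ p : ι × V, y p * Pool.Agent.Helper36.BN.inc src tgt (Sum.inr v) p = ∑ i, y (i, v) := by
  rw [Fintype.sum_prod_type]
  refine sum_congr rfl fun i _ => ?_
  unfold Pool.Agent.Helper36.BN.inc src tgt
  simp

theorem sum_inl (y : ι × V → ZMod 2) (i : ι) :
    ∑ p : ι × V, y p * Pool.Agent.Helper36.BN.inc src tgt (Sum.inl i) p = ∑ v, y (i, v) := by
  rw [Fintype.sum_prod_type]
  unfold Pool.Agent.Helper36.BN.inc src tgt
  simp

theorem mem_cyc_iff (N : ι → Finset V) (P : Finset ι) (y : ι × V → ZMod 2) :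
    y ∈ cyc src tgt (spokes N P) ↔ HubEven N P y := by
  rw [mem_cyc]
  constructor
  · rintro ⟨h1, h2⟩
    have h0 : ∀ p, y p ≠ 0 → p.1 ∈ P ∧ p.2 ∈ N p.1 := by
      intro p hp
      by_contra hc
      exact hp (h1 p (fun h => hc (mem_spokes.1 h)))
    refine ⟨h0, fun v => ?_, fun i _ => ?_⟩
    · have := h2 (Sum.inr v)
      rw [sum_inr] at this
      rw [← this]
      refine sum_subset (subset_univ _) fun i _ hi => ?_
      by_contra hc
      exact hi (h0 (i, v) hc).1
    · have := h2 (Sum.inl i)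
      rwa [sum_inl] at this
  · rintro ⟨h0, h1, h2⟩
    refine ⟨fun p hp => ?_, fun w => ?_⟩
    · by_contra hc
      exact hp (mem_spokes.2 (h0 p hc))
    · rcases w with i | v
      · rw [sum_inl]
        by_cases hi : i ∈ P
        · exact h2 i hi
        · refine sum_eq_zero fun v _ => ?_
          by_contra hc
          exact hi (h0 (i, v) hc).1
      · rw [sum_inr, ← h1 v]
        symm
        refine sum_subset (subset_univ _) fun i _ hi => ?_
        by_contra hc
        exact hi (h0 (i, v) hc).1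

theorem dg_inl (N : ι → Finset V) (P : Finset ι) (i : ι) :
    dg src tgt (spokes N P) (Sum.inl i) ≤ (N i).card ∧
      (i ∉ P → dg src tgt (spokes N P) (Sum.inl i) = 0) := by
  constructor
  · unfold dg
    refine card_le_card_of_injOn (fun p => p.2) ?_ ?_
    · intro p hp
      simp only [coe_filter, Set.mem_ofPred_eq, mem_spokes, src, tgt, Sum.inl.injEq, reduceCtorEq,
        or_false] at hp
      obtain ⟨⟨h1, h2⟩, h3⟩ := hp
      rw [← h3]; exact h2
    · intro p hp q hq h
      simp only [coe_filter, Set.mem_ofPred_eq, src, tgt, Sum.inl.injEq, reduceCtorEq,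
        or_false] at hp hq
      exact Prod.ext (hp.2.trans hq.2.symm) h
  · intro hi
    unfold dg
    rw [card_eq_zero, filter_eq_empty_iff]
    intro p hp
    simp only [src, tgt, Sum.inl.injEq, reduceCtorEq, or_false]
    intro h
    exact hi (h ▸ (mem_spokes.1 hp).1)

theorem dg_inr (N : ι → Finset V) (P : Finset ι) (v : V) :
    dg src tgt (spokes N P) (Sum.inr v) ≤ P.card := by
  unfold dg
  refine card_le_card_of_injOn (fun p => p.1) ?_ ?_
  · intro p hp
    simp only [coe_filter, Set.mem_ofPred_eq, mem_spokes] at hp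
    exact hp.1.1
  · intro p hp q hq h
    simp only [coe_filter, Set.mem_ofPred_eq, src, tgt, reduceCtorEq, Sum.inr.injEq,
      false_or] at hp hq
    exact Prod.ext h (hp.2.trans hq.2.symm)

theorem card_touched (N : ι → Finset V) (P : Finset ι) (D : ℕ) (hN : ∀ i ∈ P, (N i).card ≤ D) :
    (univ.filter (fun w => dg src tgt (spokes N P) w ≠ 0)).card ≤ P.card + P.card * D := by
  have h : univ.filter (fun w => dg src tgt (spokes N P) w ≠ 0) ⊆
      (P.image Sum.inl : Finset (ι ⊕ V)) ∪ ((P.biUnion N).image Sum.inr) := by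
    intro w hw
    rw [mem_filter] at hw
    have h2 := hw.2
    unfold dg at h2
    rw [Ne, card_eq_zero, ← Ne, ← nonempty_iff_ne_empty] at h2
    obtain ⟨p, hp⟩ := h2
    rw [mem_filter, mem_spokes] at hp
    obtain ⟨⟨h3, h4⟩, h5⟩ := hp
    rw [mem_union]
    rcases h5 with h5 | h5
    · left
      rw [← h5]
      exact mem_image_of_mem _ h3
    · right
      rw [← h5]
      exact mem_image_of_mem _ (mem_biUnion.2 ⟨_, h3, h4⟩)
  refine (card_le_card h).trans ((card_union_le _ _).trans ?_)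
  refine Nat.add_le_add card_image_le (card_image_le.trans ?_)
  refine card_biUnion_le.trans ?_
  refine (sum_le_sum hN).trans ?_
  simp

/-- the usage of a hub -/
def usg (x : ι × V → ZMod 2) (i : ι) : ℕ := if ∃ v, x (i, v) ≠ 0 then 1 else 0

/-- the weights of the vertices from the weights of the hubs -/
def wts (P : Finset ι) (w : {i // i ∈ P} → ℕ) : ι ⊕ V → ℕ
  | Sum.inl i => if h : i ∈ P then w ⟨i, h⟩ else 0
  | Sum.inr _ => 0

theorem wts_inl (P : Finset ι) (w : {i // i ∈ P} → ℕ) (i : ι) :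
    wts (V := V) P w (Sum.inl i) = if h : i ∈ P then w ⟨i, h⟩ else 0 := rfl

theorem cost_eq (P : Finset ι) (w : {i // i ∈ P} → ℕ) (x : ι × V → ZMod 2) :
    cost src tgt (fun _ => 0) (wts P w) x = ∑ i : {i // i ∈ P}, w i * usg x i.1 := by
  unfold cost
  have h1 : ∑ e : ι × V, (if x e ≠ 0 then (0 : ℕ) else 0) = 0 := by simp
  rw [h1, zero_add]
  have h2 : ∑ v ∈ tch src tgt x, wts P w v =
      ∑ v : ι ⊕ V, if v ∈ tch src tgt x then wts P w v else 0 := by
    rw [sum_ite_mem, univ_inter]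
  rw [h2, Fintype.sum_sum_type]
  have h3 : ∑ v : V, (if Sum.inr v ∈ tch src tgt x then wts P w (Sum.inr v) else 0) = 0 :=
    sum_eq_zero fun v _ => by simp [wts]
  rw [h3, add_zero]
  have h4 : ∀ i : ι, (if (Sum.inl i : ι ⊕ V) ∈ tch src tgt x then wts (V := V) P w (Sum.inl i) else 0) =
      (if h : i ∈ P then w ⟨i, h⟩ * usg x i else 0) := by
    intro i
    have h5 : (Sum.inl i : ι ⊕ V) ∈ tch src tgt x ↔ ∃ v, x (i, v) ≠ 0 := by
      unfold tch src tgt
      simp
    rw [wts_inl]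
    unfold usg
    by_cases h6 : i ∈ P
    · by_cases h7 : ∃ v, x (i, v) ≠ 0
      · rw [if_pos (h5.2 h7), dif_pos h6, dif_pos h6, if_pos h7, mul_one]
      · rw [if_neg (fun h => h7 (h5.1 h)), dif_pos h6, if_neg h7, mul_zero]
    · rw [dif_neg h6, dif_neg h6, ite_self]
  rw [sum_congr rfl fun i _ => h4 i]
  have h5 : ∑ i : {i // i ∈ P}, w i * usg x i.1 =
      ∑ i ∈ P, if h : i ∈ P then w ⟨i, h⟩ * usg x i else 0 := by
    rw [← sum_coe_sort P]
    refine sum_congr rfl fun i _ => ?_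
    rw [dif_pos i.2]
  rw [h5]
  symm
  refine sum_subset (subset_univ _) fun i _ hi => ?_
  rw [dif_neg hi]

theorem sum_wts (P : Finset ι) (w : {i // i ∈ P} → ℕ) (g : ι ⊕ V → ℕ) (M : ℕ)
    (hg : ∀ i ∈ P, g (Sum.inl i) ≤ M) :
    ∑ v, wts P w v * g v ≤ M * ∑ i, w i := by
  rw [Fintype.sum_sum_type]
  have h3 : ∑ v : V, wts P w (Sum.inr v) * g (Sum.inr v) = 0 :=
    sum_eq_zero fun v _ => by simp [wts]
  rw [h3, add_zero]
  have h5 : ∑ i : ι, wts (V := V) P w (Sum.inl i) * g (Sum.inl i) =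
      ∑ i : {i // i ∈ P}, w i * g (Sum.inl i.1) := by
    have h6 : ∑ i : {i // i ∈ P}, w i * g (Sum.inl i.1) =
        ∑ i ∈ P, if h : i ∈ P then w ⟨i, h⟩ * g (Sum.inl i) else 0 := by
      rw [← sum_coe_sort P]
      refine sum_congr rfl fun i _ => ?_
      rw [dif_pos i.2]
    rw [h6]
    symm
    rw [← sum_subset (subset_univ P)]
    · refine sum_congr rfl fun i hi => ?_
      rw [wts_inl, dif_pos hi, dif_pos hi]
    · intro i _ hi
      rw [wts_inl, dif_neg hi, zero_mul]
  rw [h5, mul_sum]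
  refine sum_le_sum fun i _ => ?_
  rw [mul_comm]
  exact Nat.mul_le_mul_right _ (hg i.1 i.2)

end graph

theorem arith (m : ℕ) : (m + 1) * (2 ^ ((m + 2) / 2) + 1) ≤ 4 * 2 ^ m := by
  obtain ⟨r, hr | hr⟩ : ∃ r, m = 2 * r ∨ m = 2 * r + 1 := ⟨m / 2, by omega⟩
  · have h1 : (m + 2) / 2 = r + 1 := by omega
    have h2 : r + 1 ≤ 2 ^ r := Nat.lt_two_pow_self
    rw [h1, hr, pow_succ, pow_mul]
    have h3 : ((2 : ℕ) ^ 2) ^ r = 2 ^ r * 2 ^ r := by
      rw [← mul_pow]; norm_num
    rw [h3]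
    generalize 2 ^ r = X at *
    nlinarith
  · have h1 : (m + 2) / 2 = r + 1 := by omega
    have h2 : r + 1 ≤ 2 ^ r := Nat.lt_two_pow_self
    rw [h1, hr, pow_succ, pow_succ, pow_mul]
    have h3 : ((2 : ℕ) ^ 2) ^ r = 2 ^ r * 2 ^ r := by
      rw [← mul_pow]; norm_num
    rw [h3]
    generalize 2 ^ r = X at *
    nlinarith

theorem main (hC : S_CHEAPV) (hE : S_EXCH) (hH : S_HMIN) : S_SKEL := by
  classical
  refine ⟨1592, ?_⟩
  intro ι V _ _ _ _ N P D hD hN hP
  set m := Nat.log 2 D with hm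
  set lam := m + 1 with hlam
  have hD1 : D < 2 ^ lam := Nat.lt_pow_succ_log_self (by norm_num) D
  have hD2 : 2 ^ m ≤ D := Nat.pow_log_le_self 2 (by omega)
  have hm1 : m + 1 ≤ D := (Nat.lt_two_pow_self (n := m)).trans_le hD2
  -- sizes
  have hP8 : P.card ≤ 2 ^ (8 * lam) := by
    refine hP.trans ?_
    rw [mul_comm, pow_mul]
    exact Nat.pow_le_pow_left hD1.le 8
  have hJ : (univ.filter (fun w => dg src tgt (spokes N P) w ≠ 0)).card ≤ 2 ^ (10 * lam) := by
    refine (card_touched N P D hN).trans ?_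
    have h1 : P.card * D ≤ 2 ^ (8 * lam) * 2 ^ lam := Nat.mul_le_mul hP8 hD1.le
    have h2 : (2 : ℕ) ^ (8 * lam) ≤ 2 ^ (8 * lam) * 2 ^ lam :=
      Nat.le_mul_of_pos_right _ (by positivity)
    have h3 : (2 : ℕ) ^ (8 * lam) * 2 ^ lam + 2 ^ (8 * lam) * 2 ^ lam ≤ 2 ^ (10 * lam) := by
      rw [← pow_add, ← two_mul, ← pow_succ']
      exact Nat.pow_le_pow_right (by norm_num) (by omega)
    omega
  have hK : ∀ w, dg src tgt (spokes N P) w ≤ 2 ^ (8 * lam) := by
    intro w
    rcases w with i | v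
    · by_cases hi : i ∈ P
      · refine ((dg_inl N P i).1.trans (hN i hi)).trans ?_
        exact hD1.le.trans (Nat.pow_le_pow_right (by norm_num) (by omega))
      · rw [(dg_inl N P i).2 hi]; exact Nat.zero_le _
    · exact (dg_inr N P v).trans hP8
  set l := (m + 2) / 2 with hl
  have hβ : 2 * (10 * lam) + 3 * (8 * lam) ≤ 88 * l := by omega
  have hK1 : 1 ≤ 8 * lam := by omega
  have hcheap := hC (10 * lam) (8 * lam) l 88 hK1 hβ (ι ⊕ V) (ι × V) (spokes N P) src tgt
    (fun _ => 0)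
  -- the bound of the hub cost
  have hbd : ∀ i ∈ P, 3 * (2 * (10 * lam) + 3 * (8 * lam)) *
      min (dg src tgt (spokes N P) (Sum.inl i)) (2 ^ l + 1) +
      3 * 88 * dg src tgt (spokes N P) (Sum.inl i) ≤ 792 * D := by
    intro i hi
    have h1 := (dg_inl N P i).1.trans (hN i hi)
    have h2 := arith m
    have h3 : 3 * (2 * (10 * lam) + 3 * (8 * lam)) *
        min (dg src tgt (spokes N P) (Sum.inl i)) (2 ^ l + 1) ≤
        3 * (2 * (10 * lam) + 3 * (8 * lam)) * (2 ^ l + 1) :=
      Nat.mul_le_mul_left _ (min_le_right _ _)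
    have h4 : 3 * (2 * (10 * lam) + 3 * (8 * lam)) * (2 ^ l + 1) =
        132 * ((m + 1) * (2 ^ ((m + 2) / 2) + 1)) := by
      rw [hlam, hl]; ring
    omega
  let C := cyc (src (ι := ι) (V := V)) tgt (spokes N P)
  obtain ⟨b, hb⟩ := hE (ι × V) (Fin (finrank (ZMod 2) C)) {i // i ∈ P} C
    (fun i x => usg x i.1) (fun i x => by unfold usg; split_ifs <;> omega) (792 * D) (by
      intro w
      obtain ⟨X, hX, hXc⟩ := hcheap (wts P w) hJ hK
      obtain ⟨b, hb⟩ := basis_of_list (C := C) hX (cost src tgt (fun _ => 0) (wts P w))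
      refine ⟨b, ?_⟩
      have h1 : ∑ j, ∑ i : {i // i ∈ P}, w i * usg (b j : ι × V → ZMod 2) i.1 =
          ∑ j, cost src tgt (fun _ => 0) (wts P w) (b j : ι × V → ZMod 2) :=
        sum_congr rfl fun j _ => (cost_eq P w _).symm
      rw [h1]
      refine hb.trans (hXc.trans ?_)
      rw [sum_const_zero, mul_zero, zero_add]
      exact sum_wts P w _ (792 * D) hbd)
  refine hH ι V N P (univ.image fun j => (b j : ι × V → ZMod 2)) (1592 * D) ?_ ?_ ?_
  · intro y hy
    obtain ⟨j, -, rfl⟩ := mem_image.1 hy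
    exact (mem_cyc_iff N P _).1 (b j).2
  · intro z hz
    have hzC : z ∈ C := (mem_cyc_iff N P z).2 hz
    have h1 : (⟨z, hzC⟩ : C) ∈ Submodule.span (ZMod 2) (Set.range b) := by
      rw [b.span_eq]; exact Submodule.mem_top
    have h2 := Submodule.mem_map_of_mem (f := C.subtype) h1
    rw [Submodule.map_span] at h2
    refine Submodule.span_mono ?_ h2
    rintro _ ⟨_, ⟨j, rfl⟩, rfl⟩
    rw [coe_image]
    exact ⟨j, by simp, rfl⟩
  · intro i hi
    have h1 := hb ⟨i, hi⟩
    have h2 : ((univ.image fun j => (b j : ι × V → ZMod 2)).filter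
        (fun y => ∃ v, y (i, v) ≠ 0)).card ≤ ∑ j, usg (b j : ι × V → ZMod 2) i := by
      rw [filter_image]
      refine card_image_le.trans ?_
      rw [card_filter]
      exact le_of_eq (sum_congr rfl fun j _ => by unfold usg; rfl)
    have h3 : Nat.log 2 (Fintype.card {i // i ∈ P}) ≤ 8 * lam := by
      rw [Fintype.card_coe]
      calc Nat.log 2 P.card ≤ Nat.log 2 (2 ^ (8 * lam)) := Nat.log_mono_right hP8
        _ = 8 * lam := Nat.log_pow (by norm_num) _
    have h4 : 8 * lam ≤ 8 * D := by omega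
    refine h2.trans (h1.trans ?_)
    omega

end Pool.Agent.Helper3.KO.SKEL

namespace BNTW

/-- Part SKEL. -/
theorem t_SKEL (h1 : S_CHEAPV) (h2 : S_EXCH) (h3 : S_HMIN) : S_SKEL :=
  Pool.Agent.Helper3.KO.SKEL.main h1 h2 h3

end BNTW
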